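import Pool.Agent.MP_c1891a_nt.H43.Spec3
import Pool.Agent.MP_c1891a_nt.H98.Fac

/-! Removing the factors that vanish on cosets, for algebraic integer coefficients. -/

namespace Pool.Agent.MP_c1891a_nt.H43

open Finset Polynomial

lemma facC_lead {G : ℂ[X]} (hG : IntC G) {ρ : ℂ} (h : G.eval ρ = 0) :
    IsIntegral ℤ (G.leadingCoeff * ρ) := by
  obtain ⟨p, rfl⟩ : G ∈ lifts (algebraMap (integralClosure ℤ ℂ) ℂ) :=
    (lifts_iff_coeff_lifts _).2 fun n => ⟨⟨_, hG n⟩, rfl⟩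
  rw [coe_mapRingHom] at h ⊢
  have h1 := isIntegral_leadingCoeff_smul p ρ (by rwa [eval_map_algebraMap] at h)
  rw [leadingCoeff_map_of_injective Subtype.val_injective, ← Algebra.smul_def]
  exact isIntegral_trans _ h1

lemma facC_mono {a : ℂ} (ha : IsIntegral ℤ a) (n : ℕ) : IntC (C a * X ^ n : ℂ[X]) := by
  intro i
  rw [coeff_C_mul_X_pow]
  split_ifs
  · exact ha
  · exact isIntegral_zero

lemma facC_quo (ρ : ℂ) (q : ℂ[X]) (h : IntC ((X - C ρ) * q)) : IntC q := by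
  induction hn : q.support.card using Nat.strong_induction_on generalizing q with
  | _ n ih =>
  by_cases h0 : q = 0
  · intro i; rw [h0, coeff_zero]; exact isIntegral_zero
  have e : ((X - C ρ) * q).leadingCoeff = q.leadingCoeff := by
    rw [leadingCoeff_mul, (monic_X_sub_C ρ).leadingCoeff, one_mul]
  have h1 : IsIntegral ℤ q.leadingCoeff := e ▸ h _
  have h2 : IsIntegral ℤ (q.leadingCoeff * ρ) := e ▸ facC_lead h (by simp)
  have e1 := q.eraseLead_add_C_mul_X_pow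
  have h3 : IntC q.eraseLead := by
    refine ih _ (hn ▸ eraseLead_support_card_lt h0) _ (fun i => ?_) rfl
    have e2 : (X - C ρ) * q.eraseLead = (X - C ρ) * q - C q.leadingCoeff * X ^ (q.natDegree + 1) +
        C (q.leadingCoeff * ρ) * X ^ q.natDegree := by
      rw [C_mul]
      linear_combination (X - C ρ) * e1
    rw [e2, coeff_add, coeff_sub]
    exact ((h i).sub (facC_mono h1 _ i)).add (facC_mono h2 _ i)
  intro i
  rw [← e1, coeff_add]
  exact (h3 i).add (facC_mono h1 _ i)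

/-- a monomial. -/
noncomputable def facCM (μ : ℤ × ℤ) : LC := AddMonoidAlgebra.single μ 1

lemma facC_M_add (μ ν : ℤ × ℤ) : facCM (μ + ν) = facCM μ * facCM ν := by
  simp [facCM, AddMonoidAlgebra.single_mul_single]

lemma facC_M_zero : facCM 0 = 1 := rfl

lemma facC_M_pow (μ : ℤ × ℤ) (n : ℕ) : facCM μ ^ n = facCM ((n : ℤ) • μ) := by
  induction n with
  | zero => simp [facC_M_zero]
  | succ n ih => rw [pow_succ, ih, ← facC_M_add]; congr 1; push_cast; rw [add_smul, one_smul]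

lemma facC_single (μ : ℤ × ℤ) (r : ℂ) :
    (AddMonoidAlgebra.single μ r : LC) = algebraMap ℂ LC r * facCM μ := by
  rw [← Algebra.smul_def, facCM, AddMonoidAlgebra.smul_single, smul_eq_mul, mul_one]

/-- the sum `∑ j, G j (u) s ^ j`. -/
noncomputable def facCS (e e' : ℤ × ℤ) (G : ℤ →₀ ℂ[X]) : LC :=
  G.sum fun j p => aeval (facCM e) p * facCM (j • e')

lemma facC_S_add (e e' : ℤ × ℤ) (G F : ℤ →₀ ℂ[X]) :
    facCS e e' (G + F) = facCS e e' G + facCS e e' F :=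
  Finsupp.sum_add_index' (fun _ => by simp) fun _ _ _ => by rw [map_add, add_mul]

lemma facC_S_smul (e e' : ℤ × ℤ) (p : ℂ[X]) (G : ℤ →₀ ℂ[X]) :
    facCS e e' (p • G) = aeval (facCM e) p * facCS e e' G := by
  unfold facCS
  rw [Finsupp.sum_smul_index' (fun _ => by simp), Finsupp.mul_sum]
  refine Finsupp.sum_congr fun j _ => ?_
  rw [smul_eq_mul, map_mul, mul_assoc]

lemma facC_shift {p : ℂ[X]} (hp : IntC p) (n : ℕ) : IntC (X ^ n * p) := by
  intro i
  rw [coeff_X_pow_mul']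
  split_ifs
  · exact hp _
  · exact isIntegral_zero

lemma facC_dec (a b c d : ℤ) (h : c * a + d * b = 1) (S : Finset (ℤ × ℤ)) (r : ℤ × ℤ → ℂ)
    (hr : ∀ μ, IsIntegral ℤ (r μ)) :
    ∃ (n : ℕ) (G : ℤ →₀ ℂ[X]), (∀ j, IntC (G j)) ∧
      facCM (-b, a) ^ n * ∑ μ ∈ S, AddMonoidAlgebra.single μ (r μ) = facCS (-b, a) (c, d) G := by
  classical
  induction S using Finset.induction_on with
  | empty => exact ⟨0, 0, fun j i => by simpa using isIntegral_zero, by simp [facCS]⟩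
  | insert μ S hμ ih =>
    obtain ⟨m, F, hF, h2⟩ := ih
    set i : ℤ := c * μ.2 - d * μ.1 with hi
    have h1 : facCM (-b, a) ^ (-i).toNat * AddMonoidAlgebra.single μ (r μ) =
        facCS (-b, a) (c, d) (Finsupp.single (a * μ.1 + b * μ.2) (C (r μ) * X ^ i.toNat)) := by
      unfold facCS
      rw [Finsupp.sum_single_index (by simp), map_mul, map_pow, aeval_X, aeval_C, facC_M_pow,
        facC_M_pow, mul_assoc, ← facC_M_add, facC_single, mul_left_comm, ← facC_M_add]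
      refine congrArg (fun ν => algebraMap ℂ LC (r μ) * facCM ν) ?_
      have e2 : (i.toNat : ℤ) = i + (-i).toNat := by omega
      rw [e2]
      ext
      · simp only [Prod.fst_add, Prod.smul_fst, smul_eq_mul]
        linear_combination b * hi - μ.1 * h
      · simp only [Prod.snd_add, Prod.smul_snd, smul_eq_mul]
        linear_combination (-a) * hi - μ.2 * h
    refine ⟨(-i).toNat + m, (X ^ m : ℂ[X]) • Finsupp.single (a * μ.1 + b * μ.2)
      (C (r μ) * X ^ i.toNat) + (X ^ (-i).toNat : ℂ[X]) • F, fun j k => ?_, ?_⟩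
    · rw [Finsupp.add_apply, Finsupp.smul_apply, Finsupp.smul_apply, smul_eq_mul, smul_eq_mul,
        coeff_add]
      refine (facC_shift (fun l => ?_) _ k).add (facC_shift (hF j) _ k)
      rw [Finsupp.single_apply]
      split_ifs
      · exact facC_mono (hr μ) _ l
      · rw [coeff_zero]; exact isIntegral_zero
    · rw [sum_insert hμ, facC_S_add, facC_S_smul, facC_S_smul, ← h1, ← h2]
      simp only [map_pow, aeval_X]
      ring

lemma facC_int (e e' ν : ℤ × ℤ) (G : ℤ →₀ ℂ[X]) (hG : ∀ j, IntC (G j)) (μ : ℤ × ℤ) :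
    IsIntegral ℤ ((facCM ν * facCS e e' G).coeff μ) := by
  classical
  have e1 : facCM ν * facCS e e' G = ∑ j ∈ G.support, ∑ i ∈ range ((G j).natDegree + 1),
      AddMonoidAlgebra.single (ν + ((i : ℤ) • e + j • e')) ((G j).coeff i) := by
    rw [facCS, Finsupp.sum, mul_sum]
    refine sum_congr rfl fun j _ => ?_
    rw [aeval_eq_sum_range, sum_mul, mul_sum]
    refine sum_congr rfl fun i _ => ?_
    rw [facC_single, facC_M_add, facC_M_add, ← facC_M_pow, Algebra.smul_def]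
    ring
  rw [e1, AddMonoidAlgebra.coeff_sum, Finsupp.finsetSum_apply]
  refine IsIntegral.sum _ fun j _ => ?_
  rw [AddMonoidAlgebra.coeff_sum, Finsupp.finsetSum_apply]
  refine IsIntegral.sum _ fun i _ => ?_
  rw [AddMonoidAlgebra.coeff_single, Finsupp.single_apply]
  split_ifs
  · exact hG j i
  · exact isIntegral_zero

/-- evaluation as an algebra homomorphism. -/
noncomputable def facCH (x y : ℂ) (hx : x ≠ 0) (hy : y ≠ 0) : LC →ₐ[ℂ] ℂ :=
  AddMonoidAlgebra.lift ℂ ℂ (ℤ × ℤ) (pushChar x y hx hy)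

lemma facC_H_eq (x y : ℂ) (hx : x ≠ 0) (hy : y ≠ 0) (P : LC) :
    facCH x y hx hy P = evC P x y := by
  rw [facCH, AddMonoidAlgebra.lift_apply, Finsupp.sum, evC, evS]
  refine Finset.sum_congr rfl fun μ _ => ?_
  simp [pushChar, mul_assoc]

lemma facC_H_M (x y : ℂ) (hx : x ≠ 0) (hy : y ≠ 0) (μ : ℤ × ℤ) :
    facCH x y hx hy (facCM μ) = x ^ μ.1 * y ^ μ.2 := by
  rw [facCH, facCM, AddMonoidAlgebra.lift_single]
  simp [pushChar]

lemma facC_H_aeval (x y : ℂ) (hx : x ≠ 0) (hy : y ≠ 0) (μ : ℤ × ℤ) (p : ℂ[X]) :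
    facCH x y hx hy (aeval (facCM μ) p) = p.eval (x ^ μ.1 * y ^ μ.2) := by
  rw [← facC_H_M x y hx hy, ← aeval_algHom_apply, coe_aeval_eq_eval]

lemma facC_key (P : LC) (hI : ∀ μ, IsIntegral ℤ (P.coeff μ)) (hP : P ≠ 0) (x y : ℂ) (hx : x ≠ 0)
    (hy : y ≠ 0) (a b : ℤ) (hab : IsCoprime a b)
    (h : ∀ t : ℂ, t ≠ 0 → evC P (x * t ^ a) (y * t ^ b) = 0) :
    IsAlgebraic ℚ (x ^ (-b) * y ^ a) ∧ ∃ P' : LC, (∀ μ, IsIntegral ℤ (P'.coeff μ)) ∧
      P = aeval (facCM (-b, a)) (X - C (x ^ (-b) * y ^ a)) * P' := by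
  obtain ⟨c, d, hcd⟩ := hab
  obtain ⟨n, G, hG, hE⟩ := facC_dec a b c d hcd P.coeff.support P.coeff hI
  have hs : ∑ μ ∈ P.coeff.support, AddMonoidAlgebra.single μ (P.coeff μ) = P := P.sum_coeff_single
  rw [hs] at hE
  have hu : facCM (b, -a) * facCM (-b, a) = 1 := by
    rw [← facC_M_add, ← facC_M_zero]; congr 1; ext <;> simp
  have hP' : P = facCM (b, -a) ^ n * facCS (-b, a) (c, d) G := by
    rw [← hE, ← mul_assoc, ← mul_pow, hu, one_pow, one_mul]
  have hz : ∀ j, (G j).eval (x ^ (-b) * y ^ a) = 0 := by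
    intro j
    by_cases hj : j ∈ G.support
    swap
    · rw [Finsupp.notMem_support_iff.1 hj, eval_zero]
    have := fac_laurent G.support
      (fun j => (G j).eval (x ^ (-b) * y ^ a) * (x ^ c * y ^ d) ^ j) (fun t ht => by
        have h1 : x * t ^ a ≠ 0 := mul_ne_zero hx (zpow_ne_zero _ ht)
        have h2 : y * t ^ b ≠ 0 := mul_ne_zero hy (zpow_ne_zero _ ht)
        have h3 := congrArg (facCH _ _ h1 h2) hE
        rw [map_mul, facC_H_eq _ _ h1 h2 P, h t ht, mul_zero, facCS, Finsupp.sum,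
          map_sum] at h3
        rw [h3]
        refine Finset.sum_congr rfl fun j _ => ?_
        rw [map_mul, facC_H_aeval, facC_H_M]
        have e1 : (x * t ^ a) ^ (-b) * (y * t ^ b) ^ a = x ^ (-b) * y ^ a := by
          rw [mul_zpow, mul_zpow, ← zpow_mul, ← zpow_mul, mul_mul_mul_comm, ← zpow_add₀ ht,
            show a * -b + b * a = 0 by ring, zpow_zero, mul_one]
        have e2 : (x * t ^ a) ^ (j * c) * (y * t ^ b) ^ (j * d) = (x ^ c * y ^ d) ^ j * t ^ j := by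
          rw [mul_zpow, mul_zpow, ← zpow_mul, ← zpow_mul, mul_mul_mul_comm, ← zpow_add₀ ht,
            show a * (j * c) + b * (j * d) = j by linear_combination j * hcd, mul_zpow,
            ← zpow_mul, ← zpow_mul, mul_comm c, mul_comm d]
        simp only [Prod.smul_fst, Prod.smul_snd, smul_eq_mul]
        rw [e1, e2, mul_assoc]) j hj
    exact (mul_eq_zero.1 this).resolve_right
      (zpow_ne_zero _ (mul_ne_zero (zpow_ne_zero _ hx) (zpow_ne_zero _ hy)))
  generalize x ^ (-b) * y ^ a = ρ at hz ⊢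
  have hE0 : G ≠ 0 := by
    rintro rfl
    exact hP (by rw [hP']; simp [facCS])
  obtain ⟨j₀, hj₀⟩ := Finsupp.support_nonempty_iff.2 hE0
  have hl : (G j₀).leadingCoeff ≠ 0 := leadingCoeff_ne_zero.2 (Finsupp.mem_support_iff.1 hj₀)
  have a1 : IsIntegral ℚ ((G j₀).leadingCoeff * ρ) := (facC_lead (hG j₀) (hz j₀)).tower_top
  have a2 : IsIntegral ℚ (G j₀).leadingCoeff := (hG j₀ _).tower_top
  refine ⟨?_, ?_⟩
  · have := (a2.inv.mul a1).isAlgebraic
    rwa [inv_mul_cancel_left₀ hl] at this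
  choose q hq using fun j => dvd_iff_isRoot.2 (hz j)
  let G' : ℤ →₀ ℂ[X] := Finsupp.onFinset G.support q fun j hj => by
    rw [Finsupp.mem_support_iff, hq j]; exact mul_ne_zero (X_sub_C_ne_zero ρ) hj
  have hE' : G = (X - C ρ : ℂ[X]) • G' := by
    ext1 j; rw [Finsupp.smul_apply, smul_eq_mul, hq j]; rfl
  refine ⟨facCM (b, -a) ^ n * facCS (-b, a) (c, d) G', fun μ => ?_, ?_⟩
  · rw [facC_M_pow]
    exact facC_int _ _ _ _ (fun j => facC_quo ρ (q j) (hq j ▸ hG j)) μ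
  · rw [mul_left_comm, ← facC_S_smul, ← hE', ← hP']

lemma facC_ne {x : ℂ} (h : Tor x) : x ≠ 0 := by
  obtain ⟨n, hn, e⟩ := h
  rintro rfl
  rw [zero_pow hn.ne'] at e
  exact zero_ne_one e

lemma facC_unit {u v : ℂ} (hu : IsIntegral ℤ u) (hv : IsIntegral ℤ v) (h : H79.IsU (u * v)) :
    H79.IsU v := by
  refine ⟨right_ne_zero_of_mul h.1, hv, ?_⟩
  have h0 := left_ne_zero_of_mul h.1
  have h1 := right_ne_zero_of_mul h.1
  have : v⁻¹ = u * (u * v)⁻¹ := by field_simp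
  rw [this]
  exact hu.mul h.2.2

theorem sFacC : SFacC := by
  have : IsNoetherianRing LC := Algebra.FiniteType.isNoetherianRing ℂ LC
  intro P
  induction P using (wellFounded_dvdNotUnit (α := LC)).induction with
  | _ P ih =>
  intro hI hP hB
  by_cases hN : NoCosetS P.coeff.support P.coeff
  · refine Or.inl ⟨P, hI, hN, ?_, fun x y _ _ h => h⟩
    by_contra hm
    obtain ⟨x, y, hx, hy, h0, -⟩ := hB 0
    have hc : P.coeff ≠ 0 := fun h => hP (AddMonoidAlgebra.coeff_injective (by simpa using h))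
    obtain ⟨μ, hμ⟩ := Finsupp.support_nonempty_iff.2 hc
    rw [evC, evS, Finset.sum_eq_single_of_mem μ hμ (fun ν hν hne => absurd
      (Finset.one_lt_card.2 ⟨ν, hν, μ, hμ, hne⟩) hm)] at h0
    exact mul_ne_zero (mul_ne_zero (Finsupp.mem_support_iff.1 hμ)
      (zpow_ne_zero _ hx)) (zpow_ne_zero _ hy) h0
  unfold NoCosetS at hN
  push Not at hN
  obtain ⟨x₀, y₀, hx₀, hy₀, a₀, b₀, hab₀, hv⟩ := hN
  have hg : 0 < Int.gcd a₀ b₀ := Int.gcd_pos_iff.2 hab₀
  obtain ⟨a, b, hab, ha, hb⟩ := Int.exists_gcd_one hg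
  generalize Int.gcd a₀ b₀ = g at hg ha hb
  have hab' : a ≠ 0 ∨ b ≠ 0 := Int.gcd_pos_iff.1 (by omega)
  obtain ⟨hρa, P', hI', hPP⟩ := facC_key P hI hP x₀ y₀ hx₀ hy₀ a b
    (Int.isCoprime_iff_gcd_eq_one.2 hab) (fun t ht => by
      obtain ⟨τ, hτ⟩ := IsAlgClosed.exists_pow_nat_eq t hg
      have hτ0 : τ ≠ 0 := by rintro rfl; rw [zero_pow hg.ne'] at hτ; exact ht hτ.symm
      have := hv τ hτ0
      rwa [ha, hb, mul_comm a, mul_comm b, zpow_mul, zpow_mul, zpow_natCast, hτ] at this)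
  have hρ0 : x₀ ^ (-b) * y₀ ^ a ≠ 0 := mul_ne_zero (zpow_ne_zero _ hx₀) (zpow_ne_zero _ hy₀)
  have hnu : ¬ IsUnit (aeval (facCM (-b, a)) (X - C (x₀ ^ (-b) * y₀ ^ a) : ℂ[X])) := by
    intro hu
    have := (hu.map (facCH x₀ y₀ hx₀ hy₀)).ne_zero
    rw [facC_H_aeval] at this
    exact this (by simp)
  generalize x₀ ^ (-b) * y₀ ^ a = ρ at hρa hPP hρ0 hnu
  have hev : ∀ x y : ℂ, x ≠ 0 → y ≠ 0 → evC P x y = (x ^ (-b) * y ^ a - ρ) * evC P' x y := by
    intro x y hx hy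
    rw [← facC_H_eq x y hx hy, ← facC_H_eq x y hx hy, hPP, map_mul, facC_H_aeval, eval_sub,
      eval_X, eval_C]
  have hint : ∀ x y : ℂ, Tor x → Tor y → IsIntegral ℤ (evC P' x y) := fun x y hx hy =>
    evS_int (fun μ _ => hI' μ) hx hy
  by_cases hT : Tor ρ
  swap
  · refine Or.inr ⟨-b, a, ρ, by omega, hρ0, hT, hρa, fun x y hx hy hu => ?_⟩
    have h1 := hev x y (facC_ne hx) (facC_ne hy)
    have h2 : evC P' x y ≠ 0 := right_ne_zero_of_mul (h1 ▸ hu.1)
    have h3 : (x ^ (-b) * y ^ a - ρ)⁻¹ = evC P' x y * (evC P x y)⁻¹ := by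
      rw [h1, mul_inv, mul_left_comm, mul_inv_cancel₀ h2, mul_one]
    rw [h3]
    exact (hint x y hx hy).mul hu.2.2
  obtain ⟨n, hn, hρ⟩ := hT
  have hP' : P' ≠ 0 := by rintro rfl; exact hP (by rw [hPP, mul_zero])
  have hB' : BigC P' := by
    intro B
    obtain ⟨x, y, hx, hy, h0, hr⟩ := hB (max B (n * (a.natAbs + b.natAbs)))
    refine ⟨x, y, hx, hy, ?_, fun h => hr (fac_rel_mono (le_max_left _ _) h)⟩
    rw [hev x y hx hy] at h0
    refine (mul_eq_zero.1 h0).resolve_left fun h1 => hr (fac_rel_mono (le_max_right _ _) ?_)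
    rw [sub_eq_zero] at h1
    have hn' : (0 : ℤ) < n := by exact_mod_cast hn
    refine ⟨-b * n, a * n, ?_, ?_, ?_, ?_⟩
    · rcases hab' with h | h
      · exact Or.inr (mul_ne_zero h hn'.ne')
      · exact Or.inl (mul_ne_zero (neg_ne_zero.2 h) hn'.ne')
    · rw [abs_mul, abs_neg, abs_of_pos hn']; push_cast
      nlinarith [abs_nonneg a, abs_nonneg b]
    · rw [abs_mul, abs_of_pos hn']; push_cast
      nlinarith [abs_nonneg a, abs_nonneg b]
    · rw [zpow_mul, zpow_mul, zpow_natCast, zpow_natCast, ← mul_pow, h1, hρ]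
  have hU : ∀ x y : ℂ, Tor x → Tor y → H79.IsU (evC P x y) → H79.IsU (evC P' x y) := by
    intro x y hx hy hu
    rw [hev x y (facC_ne hx) (facC_ne hy)] at hu
    refine facC_unit ?_ (hint x y hx hy) hu
    obtain ⟨n₁, a₁, b₁⟩ := hx
    obtain ⟨n₂, a₂, b₂⟩ := hy
    exact ((int_zpow a₁ b₁ _).mul (int_zpow a₂ b₂ _)).sub (by simpa using int_zpow hn hρ 1)
  rcases ih P' ⟨hP', _, hnu, by rw [hPP, mul_comm]⟩ hI' hP' hB' with
    ⟨Q, h1, h2, h3, h4⟩ | ⟨a', b', ρ', h1, h2, h3, h4, h5⟩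
  · exact Or.inl ⟨Q, h1, h2, h3, fun x y hx hy hu => h4 x y hx hy (hU x y hx hy hu)⟩
  · exact Or.inr ⟨a', b', ρ', h1, h2, h3, h4, fun x y hx hy hu => h5 x y hx hy (hU x y hx hy hu)⟩

end Pool.Agent.MP_c1891a_nt.H43
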